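import Pool.Agent.W743.HP.Stm

set_option autoImplicit false

open Complex Metric

namespace Pool.Agent.W737.HP

open Pool.Agent.W743.HP

lemma one_sub_ne {w : ℂ} (hw : ‖w‖ < 1) : 1 - w ≠ 0 := by
  intro h
  have : w = 1 := (sub_eq_zero.mp h).symm
  rw [this] at hw
  simp at hw

lemma im_pos {w : ℂ} (hw : ‖w‖ < 1) : 0 < (I * (1 + w) / (1 - w)).im := by
  have h1 := one_sub_ne hw
  have h2 : 0 < normSq (1 - w) := normSq_pos.mpr h1
  have h3 : (I * (1 + w) / (1 - w)).im = (1 - normSq w) / normSq (1 - w) := by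
    rw [div_im]
    have : normSq w = w.re * w.re + w.im * w.im := normSq_apply w
    rw [this]
    simp only [mul_re, mul_im, I_re, I_im, add_re, add_im, one_re, one_im, sub_re, sub_im]
    field_simp
    ring
  rw [h3]
  apply div_pos _ h2
  rw [normSq_eq_norm_sq]
  nlinarith [norm_nonneg w]

lemma add_I_ne (τ : UpperHalfPlane) : (τ : ℂ) + I ≠ 0 := by
  intro h
  have := congrArg im h
  simp at this
  have h2 := τ.im_pos
  linarith

lemma norm_lt (τ : UpperHalfPlane) : ‖((τ : ℂ) - I) / ((τ : ℂ) + I)‖ < 1 := by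
  rw [norm_div, div_lt_one (norm_pos_iff.mpr (add_I_ne τ))]
  have h : ‖(τ : ℂ) - I‖ ^ 2 < ‖(τ : ℂ) + I‖ ^ 2 := by
    rw [← normSq_eq_norm_sq, ← normSq_eq_norm_sq, normSq_apply, normSq_apply]
    simp only [sub_re, sub_im, add_re, add_im, I_re, I_im, UpperHalfPlane.coe_re,
      UpperHalfPlane.coe_im]
    nlinarith [τ.im_pos]
  exact lt_of_pow_lt_pow_left₀ 2 (norm_nonneg _) h

theorem cay_thm : S_CAY := by
  have hb : ∀ w : ball (0 : ℂ) 1, ‖(w : ℂ)‖ < 1 := fun w => by
    have := w.2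
    rwa [mem_ball_zero_iff] at this
  have hc : ∀ w : ball (0 : ℂ) 1, (cay w : ℂ) = I * (1 + w) / (1 - w) := fun w => by
    unfold cay
    rw [UpperHalfPlane.ofComplex_apply_of_im_pos (im_pos (hb w))]
  refine ⟨{
    toFun := fun w => cay w
    invFun := fun τ => ⟨((τ : ℂ) - I) / ((τ : ℂ) + I), by
      rw [mem_ball_zero_iff]; exact norm_lt τ⟩
    left_inv := ?_
    right_inv := ?_
    continuous_toFun := ?_
    continuous_invFun := ?_ }, fun w => rfl⟩
  · intro w
    apply Subtype.ext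
    change ((cay w : ℂ) - I) / ((cay w : ℂ) + I) = w
    have h1 := one_sub_ne (hb w)
    have h2 := add_I_ne (cay w)
    rw [div_eq_iff h2, hc w]
    field_simp
    ring
  · intro τ
    apply UpperHalfPlane.ext
    have h2 := add_I_ne τ
    rw [hc ⟨((τ : ℂ) - I) / ((τ : ℂ) + I), by rw [mem_ball_zero_iff]; exact norm_lt τ⟩]
    have h3 : 1 - ((τ : ℂ) - I) / ((τ : ℂ) + I) ≠ 0 := one_sub_ne (norm_lt τ)
    change I * (1 + ((τ : ℂ) - I) / ((τ : ℂ) + I)) / (1 - ((τ : ℂ) - I) / ((τ : ℂ) + I)) = τ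
    rw [div_eq_iff h3]
    field_simp
    ring
  · rw [UpperHalfPlane.isOpenEmbedding_coe.isEmbedding.isInducing.continuous_iff]
    have : (UpperHalfPlane.coe ∘ fun w : ball (0 : ℂ) 1 => cay w) =
        fun w : ball (0 : ℂ) 1 => I * (1 + (w : ℂ)) / (1 - (w : ℂ)) := by
      funext w
      exact hc w
    rw [this]
    exact ((continuous_const.mul (continuous_const.add continuous_subtype_val)).div
      (continuous_const.sub continuous_subtype_val) fun w => one_sub_ne (hb w))
  · apply Continuous.subtype_mk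
    exact (UpperHalfPlane.continuous_coe.sub continuous_const).div
      (UpperHalfPlane.continuous_coe.add continuous_const) fun τ => add_I_ne τ

theorem cay : S_CAY := cay_thm

end Pool.Agent.W737.HP
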